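import Pool.Agent.X20.Tr.LogR

/-!
# Ties in prime number races at the points `⌊α n ^ c⌋`

From Mathlib: `dimH E`: the Hausdorff dimension of `E`; `⌊x⌋₊`: the integer part; `𝓝`: neighbourhoods.
-/

set_option autoImplicit false

namespace Pool.Agent.Results.MP_8d92d6_nt.AlongDilatedPowers

open Finset Filter Topology
open Pool.Agent.X20.Tr

/-- the number of the primes `p ≤ n` with `p ≡ a mod q` -/
def race (q a n : ℕ) : ℕ := ((Icc 1 n).filter (fun p => p.Prime ∧ p % q = a % q)).card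

open Classical in
/-- the logarithmic density of the `n ≤ N` with `P (s n)` -/
noncomputable def logDens (P : ℕ → Prop) (s : ℕ → ℕ) (N : ℕ) : ℝ :=
  (∑ n ∈ Icc 1 N, (if P (s n) then (1 : ℝ) else 0) / n) / Real.log N

open Classical in
/-- the density of the `n ≤ N` with `P (s n)` -/
noncomputable def dens (P : ℕ → Prop) (s : ℕ → ℕ) (N : ℕ) : ℝ :=
  (∑ n ∈ Icc 1 N, if P (s n) then (1 : ℝ) else 0) / N

/-- `n` is a tie -/
def Tie (q a b n : ℕ) : Prop := race q a n = race q b n

/-- the class `b` is ahead at `n` -/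
def Ahead (q a b n : ℕ) : Prop := race q a n < race q b n

/-- For every real `c > 1` there are `0 < κ < 1` and a set `E` of real numbers of Hausdorff dimension at most `1 - κ`
such that for every real `α > 0` outside `E`, all `q, a, b` and every real `ρ`: the set of the ties of the classes `a`
and `b` modulo `q` has logarithmic density `ρ` if and only if the set of the `n` such that `⌊α n ^ c⌋` is a tie has
logarithmic density `ρ`; the same for natural densities; and the same for the set where `b` is ahead of `a`. -/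
theorem result (c : ℝ) (hc : 1 < c) : ∃ κ : ℝ, 0 < κ ∧ κ < 1 ∧ ∃ E : Set ℝ, dimH E ≤ ENNReal.ofReal (1 - κ) ∧
    ∀ α : ℝ, 0 < α → α ∉ E → ∀ (q a b : ℕ) (ρ : ℝ), ∀ P ∈ ({Tie q a b, Ahead q a b} : Set (ℕ → Prop)),
      (Tendsto (logDens P fun n => n) atTop (𝓝 ρ) ↔ Tendsto (logDens P fun n => ⌊α * (n : ℝ) ^ c⌋₊) atTop (𝓝 ρ)) ∧
      (Tendsto (dens P fun n => n) atTop (𝓝 ρ) ↔ Tendsto (dens P fun n => ⌊α * (n : ℝ) ^ c⌋₊) atTop (𝓝 ρ)) := by
  classical
  obtain ⟨κ, hκ0, hκ1, H⟩ := bothSparse c hc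
  obtain ⟨E, hE, h⟩ := H (Bool × ℕ × ℕ × ℕ)
    (fun i n => @ite ℝ ((if i.1 then Tie i.2.1 i.2.2.1 i.2.2.2 else Ahead i.2.1 i.2.2.1 i.2.2.2) n)
      (Classical.propDecidable _) 1 0) (fun i n => by
        show |@ite ℝ _ (Classical.propDecidable _) 1 0| ≤ 1
        split_ifs <;> simp)
  refine ⟨κ, hκ0, hκ1, E, hE, fun α hα hαE q a b ρ P hP => ?_⟩
  rcases hP with rfl | hP
  · have h1 := h α hα hαE (true, q, a, b) ρ
    exact h1
  · rw [Set.mem_singleton_iff] at hP
    subst hP
    have h1 := h α hα hαE (false, q, a, b) ρ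
    exact h1

end Pool.Agent.Results.MP_8d92d6_nt.AlongDilatedPowers
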